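import Pool.Agent.Results.MP_40718a_co.TreewidthFour
import Pool.Agent.H126R2.CDC.Main

set_option autoImplicit false

/-!
# Seymour's even circuit covers for twice an eulerian `(1,2)`-weight

Graphs are finite, loops and parallel edges allowed: `MGraph V E`, `G.deg`, `G.IsCircuit` and
`G.Bridgeless` are defined in `Pool.Agent.H126R2.CDC.Defs`. An edge set is even (`G.IsEven`) if
every vertex has even degree in it.

If `(C₁, …, C₆)` are even subgraphs with every edge in exactly four of them and `F` is an even
subgraph then the sums `Cᵢ + F` cover the edges of `F` exactly twice and all other edges exactly four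
times. With the quadruple covers of the graphs of treewidth at most four (engine of
`MP_40718a_co.TreewidthFour`) and the circuit double cover theorem (`H126R2.CDC`) this gives
Seymour's conjecture for a large class of weights, tight cuts included.
-/

namespace Pool.Agent.Results.MP_20b97f_co.TwiceEulerianWeights

open Finset
open Pool.Agent.H126R2.CDC
open Pool.Agent.H126R2.CDC.MGraph

variable {V E : Type} [Fintype V] [DecidableEq V] [Fintype E] [DecidableEq E]

/-- `(G, p)` has a circuit cover: a multiset of circuits such that every edge `e` lies in exactly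
`p e` of its members. -/
def HasCircuitCover (G : MGraph V E) (p : E → ℕ) : Prop :=
  ∃ 𝓕 : Multiset (Finset E), (∀ C ∈ 𝓕, G.IsCircuit C) ∧ ∀ e, 𝓕.countP (fun C => e ∈ C) = p e

/-- six even subgraphs such that every edge `e` lies in exactly `p e` of them -/
def SixCover (G : MGraph V E) (p : E → ℕ) : Prop :=
  ∃ C : Fin 6 → Finset E, (∀ i v, Even (G.deg (C i) v)) ∧
    ∀ e, (univ.filter fun i => e ∈ C i).card = p e

/-- `G` has a tree decomposition with bags of at most `k + 1` vertices. -/
def TreewidthLE (G : MGraph V E) (k : ℕ) : Prop :=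
  ∃ (ι : Type) (_ : Fintype ι) (T : SimpleGraph ι) (bag : ι → Finset V),
    T.IsTree ∧ (∀ v, ∃ i, v ∈ bag i) ∧ (∀ e, ∃ i, ∀ v ∈ G.ends e, v ∈ bag i) ∧
    (∀ (i j : ι) (p : T.Walk i j), p.IsPath → ∀ k ∈ p.support, ∀ v, v ∈ bag i → v ∈ bag j →
      v ∈ bag k) ∧ ∀ i, (bag i).card ≤ k + 1

lemma even_symm (G : MGraph V E) (A B : Finset E) (hA : ∀ v, Even (G.deg A v))
    (hB : ∀ v, Even (G.deg B v)) : ∀ v, Even (G.deg (symmDiff A B) v) := by
  intro v
  have h1 := hA v
  have h2 := hB v
  rw [deg_eq_sum] at h1 h2 ⊢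
  have e1 : ∑ e ∈ A, G.ep e v = ∑ e ∈ A \ B, G.ep e v + ∑ e ∈ A ∩ B, G.ep e v := by
    rw [← sum_union (disjoint_sdiff_inter A B), sdiff_union_inter]
  have e2 : ∑ e ∈ B, G.ep e v = ∑ e ∈ B \ A, G.ep e v + ∑ e ∈ A ∩ B, G.ep e v := by
    rw [inter_comm, ← sum_union (disjoint_sdiff_inter B A), sdiff_union_inter]
  have e3 : ∑ e ∈ symmDiff A B, G.ep e v = ∑ e ∈ A \ B, G.ep e v + ∑ e ∈ B \ A, G.ep e v := by
    rw [symmDiff_def, sup_eq_union, sum_union disjoint_sdiff_sdiff]
  rw [e1] at h1
  rw [e2] at h2
  rw [e3]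
  rw [Nat.even_iff] at *
  omega

omit [Fintype E] in
lemma count_switch (C : Fin 6 → Finset E) (F : Finset E) (e : E) :
    (univ.filter fun i => e ∈ symmDiff (C i) F).card =
      if e ∈ F then 6 - (univ.filter fun i => e ∈ C i).card
      else (univ.filter fun i => e ∈ C i).card := by
  by_cases h : e ∈ F
  · rw [if_pos h]
    have h1 : (univ.filter fun i => e ∈ symmDiff (C i) F) = (univ.filter fun i => e ∈ C i)ᶜ := by
      ext i
      simp [mem_symmDiff, h]
    rw [h1, card_compl, Fintype.card_fin]
  · rw [if_neg h]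
    congr 1
    ext i
    simp [mem_symmDiff, h]

lemma six_switch (G : MGraph V E) (F : Finset E) (hF : ∀ v, Even (G.deg F v)) :
    SixCover G (fun e => if e ∈ F then 2 else 4) ↔ SixCover G (fun _ => 4) := by
  constructor
  · rintro ⟨C, h1, h2⟩
    refine ⟨fun i => symmDiff (C i) F, fun i => even_symm G _ _ (h1 i) hF, fun e => ?_⟩
    rw [count_switch, h2 e]
    by_cases h : e ∈ F
    · simp [h]
    · simp [h]
  · rintro ⟨C, h1, h2⟩
    refine ⟨fun i => symmDiff (C i) F, fun i => even_symm G _ _ (h1 i) hF, fun e => ?_⟩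
    rw [count_switch, h2 e]
    rfl

omit [Fintype E] in
lemma countP_sum {ι : Type} (s : Finset ι) (f : ι → Multiset (Finset E)) (e : E) :
    (∑ i ∈ s, f i).countP (fun C => e ∈ C) = ∑ i ∈ s, (f i).countP (fun C => e ∈ C) := by
  classical
  induction s using Finset.induction_on with
  | empty => simp
  | insert c s hc ih => rw [sum_insert hc, sum_insert hc, Multiset.countP_add, ih]

/-- A cover by even subgraphs gives a circuit cover. -/
lemma circuits_of_even {ι : Type} [Fintype ι] (G : MGraph V E) (C : ι → Finset E)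
    (hC : ∀ i v, Even (G.deg (C i) v)) :
    HasCircuitCover G (fun e => (univ.filter fun i => e ∈ C i).card) := by
  choose 𝓕 h1 h2 using fun i => G.decompose _ _ rfl (hC i)
  refine ⟨∑ i, 𝓕 i, fun X hX => ?_, fun e => ?_⟩
  · rw [Multiset.mem_sum] at hX
    obtain ⟨i, _, hi⟩ := hX
    exact h1 i X hi
  · rw [countP_sum]
    show _ = (univ.filter fun i => e ∈ C i).card
    rw [card_filter]
    exact sum_congr rfl fun i _ => h2 i e

omit [Fintype V] [Fintype E] in
lemma cover_add {G : MGraph V E} {p q : E → ℕ} (hp : HasCircuitCover G p)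
    (hq : HasCircuitCover G q) : HasCircuitCover G (fun e => p e + q e) := by
  obtain ⟨A, a1, a2⟩ := hp
  obtain ⟨B, b1, b2⟩ := hq
  refine ⟨A + B, fun X hX => ?_, fun e => ?_⟩
  · rcases Multiset.mem_add.1 hX with h | h
    · exact a1 X h
    · exact b1 X h
  · rw [Multiset.countP_add, a2, b2]

/-- Covers from a quadruple cover and the circuit double cover theorem. -/
theorem cover_switch (G : MGraph V E) (hB : G.Bridgeless) (hQ : SixCover G (fun _ => 4))
    (b : ℕ) : ∀ (a : ℕ) (F : Fin a → Finset E), (∀ j v, Even (G.deg (F j) v)) →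
      HasCircuitCover G (fun e => 4 * a + 2 * b - 2 * (univ.filter fun j => e ∈ F j).card) := by
  intro a
  induction a with
  | zero =>
    intro F _
    have hd : ∀ b : ℕ, HasCircuitCover G (fun _ => 2 * b) := by
      intro b
      induction b with
      | zero => exact ⟨0, by simp, fun e => by simp⟩
      | succ b ih =>
        obtain ⟨X, hX1, hX2⟩ := G.exists_cdc hB
        have h1 : HasCircuitCover G (fun _ => 2) := ⟨X, hX1, hX2⟩
        exact cover_add ih h1
    obtain ⟨X, hX1, hX2⟩ := hd b
    refine ⟨X, hX1, fun e => ?_⟩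
    rw [hX2 e]
    simp
  | succ a ih =>
    intro F hF
    have h1 := ih (fun j => F j.succ) (fun j => hF j.succ)
    obtain ⟨C, h2, h3⟩ := (six_switch G (F 0) (hF 0)).2 hQ
    have h4 := circuits_of_even G C h2
    obtain ⟨X, hX1, hX2⟩ := cover_add h1 h4
    refine ⟨X, hX1, fun e => ?_⟩
    rw [hX2 e]
    simp only [h3 e]
    have h5 : (univ.filter fun j : Fin (a + 1) => e ∈ F j).card =
        (if e ∈ F 0 then 1 else 0) + (univ.filter fun j : Fin a => e ∈ F j.succ).card := by
      rw [card_filter, card_filter, Fin.sum_univ_succ]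
    have h6 : (univ.filter fun j : Fin a => e ∈ F j.succ).card ≤ a := by
      have := card_le_univ (univ.filter fun j : Fin a => e ∈ F j.succ)
      rwa [Fintype.card_fin] at this
    rw [h5]
    split_ifs <;> omega

/-- Bridgeless graphs of treewidth at most four have quadruple covers by six even subgraphs. -/
theorem six_of_treewidth (G : MGraph V E) (hB : G.Bridgeless) (hT : TreewidthLE G 4) :
    SixCover G (fun _ => 4) := by
  obtain ⟨v, hv⟩ := G.exists_halves
  obtain ⟨ι, _, T, bag, t1, -, t2, t3, t4⟩ := hT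
  have hTD : TH499.TF.HasTD 5 (fun e => v (e, false)) (fun e => v (e, true)) := by
    refine TH499.TF.HasTD.of_tree t1 t3 (fun e => ?_) t4
    obtain ⟨i, hi⟩ := t2 e
    rw [hv e] at hi
    exact ⟨i, hi _ (by simp), hi _ (by simp)⟩
  have hcut : TH676.A.Br (fun e => v (e, false)) (fun e => v (e, true)) ∅ ∅ := by
    intro Y _
    rw [sdiff_empty]
    exact G.no_one_cut hB v hv Y
  obtain ⟨C, h1, h2⟩ := TH497.BF.bf4 hTD hcut
  refine ⟨C, fun i w => ?_, h2⟩
  have h3 := h1 i w
  rw [deg_eq_sum]
  have h4 : ∑ e ∈ C i, G.ep e w = ∑ e ∈ C i, ((if v (e, false) = w then 1 else 0) +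
      (if v (e, true) = w then 1 else 0)) := sum_congr rfl fun e _ => G.ep_eq (hv e) w
  rw [h4]
  exact h3

/-- **Theorem.** Let `G` be a finite graph, loops and parallel edges allowed.

1. For every even subgraph `F` of `G`: there are six even subgraphs such that the edges of `F` lie in
   exactly two and all other edges in exactly four of them if and only if there are six even subgraphs
   such that all edges lie in exactly four of them.
2. Let `G` be bridgeless of treewidth at most four. If `q : E → {1, 2}` is an eulerian weight (its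
   edges of weight one form an even subgraph) then `(G, 2 q)` has a circuit cover.
3. More generally, for such `G`, for all numbers `a` and `b` and all even subgraphs `F₁, …, F_a`, the
   weight `p(e) = 4 a + 2 b - 2 #{j | e ∈ F_j}` has a circuit cover. -/
theorem result {V E : Type} [Fintype V] [DecidableEq V] [Fintype E] [DecidableEq E]
    (G : MGraph V E) :
    (∀ F : Finset E, (∀ v, Even (G.deg F v)) →
      (SixCover G (fun e => if e ∈ F then 2 else 4) ↔ SixCover G (fun _ => 4))) ∧
    (G.Bridgeless → TreewidthLE G 4 →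
      (∀ q : E → ℕ, (∀ e, q e = 1 ∨ q e = 2) →
        (∀ v, Even (G.deg (univ.filter fun e => q e = 1) v)) →
        HasCircuitCover G (fun e => 2 * q e)) ∧
      ∀ (a b : ℕ) (F : Fin a → Finset E), (∀ j v, Even (G.deg (F j) v)) →
        HasCircuitCover G (fun e => 4 * a + 2 * b - 2 * (univ.filter fun j => e ∈ F j).card)) := by
  refine ⟨fun F hF => six_switch G F hF, fun hB hT => ?_⟩
  have hQ := six_of_treewidth G hB hT
  refine ⟨fun q hq hev => ?_, fun a b F hF => cover_switch G hB hQ b a F hF⟩
  obtain ⟨X, hX1, hX2⟩ := cover_switch G hB hQ 0 1 (fun _ => univ.filter fun e => q e = 1)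
    (fun _ => hev)
  refine ⟨X, hX1, fun e => ?_⟩
  rw [hX2 e]
  rcases hq e with h | h <;> simp [h]

end Pool.Agent.Results.MP_20b97f_co.TwiceEulerianWeights
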