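import Pool.Agent.Q253.M8.BF
import Pool.Agent.Results.MP_20b97f_co.TwiceEulerianWeights

set_option autoImplicit false

/-!
# Seymour's even circuit covers: graphs with matching number at most eight

Graphs are finite, loops and parallel edges allowed: `MGraph V E`, `G.deg`, `G.IsCircuit` and
`G.Bridgeless` are defined in `Pool.Agent.H126R2.CDC.Defs`.

The quadruple covers by six even subgraphs of the bridgeless graphs in which no nine edges are
pairwise disjoint (`MP_40718a_co.MatchingNumberEight`), symmetric differences with even subgraphs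
(`TwiceEulerianWeights` of helper261) and the circuit double cover theorem (`H126R2.CDC`) give
Seymour's conjecture for a large class of weights of these graphs, tight cuts included.
-/

namespace Pool.Agent.Results.MP_20b97f_co.MatchingNumberEight

open Finset
open Pool.Agent.H126R2.CDC
open Pool.Agent.H126R2.CDC.MGraph

variable {V E : Type} [Fintype V] [DecidableEq V] [Fintype E] [DecidableEq E]

/-- `(G, p)` has a circuit cover: a multiset of circuits such that every edge `e` lies in exactly
`p e` of its members. -/
def HasCircuitCover (G : MGraph V E) (p : E → ℕ) : Prop :=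
  ∃ 𝓕 : Multiset (Finset E), (∀ C ∈ 𝓕, G.IsCircuit C) ∧ ∀ e, 𝓕.countP (fun C => e ∈ C) = p e

/-- No nine edges (not loops) are pairwise disjoint. -/
def MatchingNumberLeEight (G : MGraph V E) : Prop :=
  ∀ M : Finset E, (∀ e ∈ M, ¬ (G.ends e).IsDiag) →
    (∀ e ∈ M, ∀ f ∈ M, e ≠ f → ∀ v, ¬ (v ∈ G.ends e ∧ v ∈ G.ends f)) → M.card ≤ 8

/-- Bridgeless graphs with matching number at most eight have quadruple covers by six even
subgraphs. -/
theorem six (G : MGraph V E) (hB : G.Bridgeless) (hM : MatchingNumberLeEight G) :
    TwiceEulerianWeights.SixCover G (fun _ => 4) := by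
  obtain ⟨v, hv⟩ := G.exists_halves
  have hm : Q253.M8.Mt (fun e => v (e, false)) (fun e => v (e, true)) := by
    intro M h1 h2
    refine hM M (fun e he hd => h1 e he ?_) (fun e he f hf hef w hw => ?_)
    · rw [hv e] at hd
      exact Sym2.mk_isDiag_iff.1 hd
    · obtain ⟨a, b, c, d⟩ := h2 e he f hf hef
      obtain ⟨h3, h4⟩ := hw
      rw [hv e, Sym2.mem_iff] at h3
      rw [hv f, Sym2.mem_iff] at h4
      rcases h3 with h3 | h3 <;> rcases h4 with h4 | h4
      · exact a (h3.symm.trans h4)
      · exact b (h3.symm.trans h4)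
      · exact c (h3.symm.trans h4)
      · exact d (h3.symm.trans h4)
  have hcut : TH676.A.Br (fun e => v (e, false)) (fun e => v (e, true)) ∅ ∅ := by
    intro Y _
    rw [sdiff_empty]
    exact G.no_one_cut hB v hv Y
  obtain ⟨C, h1, h2⟩ := TH497.BF.six
    (Q253.M8.BF.flow_of_mt TH497.BF.factsBF _ _ hcut hm)
  refine ⟨C, fun i w => ?_, h2⟩
  have h3 := h1 i w
  rw [deg_eq_sum]
  have h4 : ∑ e ∈ C i, G.ep e w = ∑ e ∈ C i, ((if v (e, false) = w then 1 else 0) +
      (if v (e, true) = w then 1 else 0)) := sum_congr rfl fun e _ => G.ep_eq (hv e) w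
  rw [h4]
  exact h3

/-- **Theorem.** Let `G` be a finite bridgeless graph, loops and parallel edges allowed, in which no
nine edges are pairwise disjoint.

1. If `q : E → {1, 2}` is an eulerian weight (its edges of weight one form an even subgraph) then
   `(G, 2 q)` has a circuit cover.
2. More generally, for all numbers `a` and `b` and all even subgraphs `F₁, …, F_a`, the weight
   `p(e) = 4 a + 2 b - 2 #{j | e ∈ F_j}` has a circuit cover. -/
theorem result {V E : Type} [Fintype V] [DecidableEq V] [Fintype E] [DecidableEq E]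
    (G : MGraph V E) (hB : G.Bridgeless) (hM : MatchingNumberLeEight G) :
    (∀ q : E → ℕ, (∀ e, q e = 1 ∨ q e = 2) →
      (∀ v, Even (G.deg (univ.filter fun e => q e = 1) v)) →
      HasCircuitCover G (fun e => 2 * q e)) ∧
    ∀ (a b : ℕ) (F : Fin a → Finset E), (∀ j v, Even (G.deg (F j) v)) →
      HasCircuitCover G (fun e => 4 * a + 2 * b - 2 * (univ.filter fun j => e ∈ F j).card) := by
  have hQ := six G hB hM
  refine ⟨fun q hq hev => ?_,
    fun a b F hF => TwiceEulerianWeights.cover_switch G hB hQ b a F hF⟩
  obtain ⟨X, hX1, hX2⟩ := TwiceEulerianWeights.cover_switch G hB hQ 0 1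
    (fun _ => univ.filter fun e => q e = 1) (fun _ => hev)
  refine ⟨X, hX1, fun e => ?_⟩
  rw [hX2 e]
  rcases hq e with h | h <;> simp [h]

end Pool.Agent.Results.MP_20b97f_co.MatchingNumberEight
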