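import Pool.Agent.Q253.M8.BFC
import Pool.Agent.Q253.P3.Main
import Pool.Agent.Results.MP_20b97f_co.TwiceEulerianWeights

set_option autoImplicit false

/-!
# Seymour's even circuit covers: graphs with 3-path cover number at most five

Graphs are finite, loops and parallel edges allowed: `MGraph V E`, `G.deg`, `G.IsCircuit` and
`G.Bridgeless` are defined in `Pool.Agent.H126R2.CDC.Defs`.

Bridgeless graphs in which some five vertices meet all paths with three vertices have quadruple
covers by six even subgraphs (`Q253.P3`): a minimal counterexample has girth at least five and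
degrees at least three; by counting it has at most fifteen vertices, so it has a nowhere-zero
4-flow or is the Petersen graph. Symmetric differences with even subgraphs (`TwiceEulerianWeights`
of helper261) and the circuit double cover theorem (`H126R2.CDC`) give Seymour's conjecture for a
large class of weights, tight cuts included.
-/

namespace Pool.Agent.Results.MP_20b97f_co.ThreePathCoverFive

open Finset
open Pool.Agent.H126R2.CDC
open Pool.Agent.H126R2.CDC.MGraph

variable {V E : Type} [Fintype V] [DecidableEq V] [Fintype E] [DecidableEq E]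

/-- `(G, p)` has a circuit cover: a multiset of circuits such that every edge `e` lies in exactly
`p e` of its members. -/
def HasCircuitCover (G : MGraph V E) (p : E → ℕ) : Prop :=
  ∃ 𝓕 : Multiset (Finset E), (∀ C ∈ 𝓕, G.IsCircuit C) ∧ ∀ e, 𝓕.countP (fun C => e ∈ C) = p e

/-- Some set of at most five vertices meets all paths `a b c` with three vertices. -/
def ThreePathCoverLeFive (G : MGraph V E) : Prop :=
  ∃ X : Finset V, X.card ≤ 5 ∧ ∀ a b c : V, a ≠ b → b ≠ c → a ≠ c → (∃ e, G.ends e = s(a, b)) →
    (∃ e, G.ends e = s(b, c)) → a ∈ X ∨ b ∈ X ∨ c ∈ X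

/-- Bridgeless graphs with 3-path cover number at most five have quadruple covers by six even
subgraphs. -/
theorem six (G : MGraph V E) (hB : G.Bridgeless) (hM : ThreePathCoverLeFive G) :
    TwiceEulerianWeights.SixCover G (fun _ => 4) := by
  obtain ⟨v, hv⟩ := G.exists_halves
  have hm : Q253.P3.Cl3 (fun e => v (e, false)) (fun e => v (e, true)) := by
    obtain ⟨X, hX, h⟩ := hM
    have hj : ∀ (e : E) (x y : V), Q253.P3.Jn (fun e => v (e, false)) (fun e => v (e, true)) e x y →
        G.ends e = s(x, y) := by
      rintro e x y (⟨h1, h2⟩ | ⟨h1, h2⟩)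
      · rw [hv e, ← h1, ← h2]
      · rw [hv e, Sym2.eq_swap, ← h1, ← h2]
    refine ⟨X, hX, fun a b c e f ha hb hc hab hbc h1 h2 => ?_⟩
    by_contra hac
    rcases h a b c hab hbc hac ⟨e, hj e a b h1⟩ ⟨f, hj f b c h2⟩ with h3 | h3 | h3
    · exact ha h3
    · exact hb h3
    · exact hc h3
  have hcut : TH676.A.Br (fun e => v (e, false)) (fun e => v (e, true)) ∅ ∅ := by
    intro Y _
    rw [sdiff_empty]
    exact G.no_one_cut hB v hv Y
  obtain ⟨C, h1, h2⟩ := TH497.BF.six
    (Q253.P3.flowA_of_p3 TH497.BF.factsBF _ _ hcut hm)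
  refine ⟨C, fun i w => ?_, h2⟩
  have h3 := h1 i w
  rw [deg_eq_sum]
  have h4 : ∑ e ∈ C i, G.ep e w = ∑ e ∈ C i, ((if v (e, false) = w then 1 else 0) +
      (if v (e, true) = w then 1 else 0)) := sum_congr rfl fun e _ => G.ep_eq (hv e) w
  rw [h4]
  exact h3

/-- **Theorem.** Let `G` be a finite bridgeless graph, loops and parallel edges allowed, in which some
five vertices meet all paths with three vertices.

1. If `q : E → {1, 2}` is an eulerian weight (its edges of weight one form an even subgraph) then
   `(G, 2 q)` has a circuit cover.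
2. More generally, for all numbers `a` and `b` and all even subgraphs `F₁, …, F_a`, the weight
   `p(e) = 4 a + 2 b - 2 #{j | e ∈ F_j}` has a circuit cover. -/
theorem result {V E : Type} [Fintype V] [DecidableEq V] [Fintype E] [DecidableEq E]
    (G : MGraph V E) (hB : G.Bridgeless) (hM : ThreePathCoverLeFive G) :
    (∀ q : E → ℕ, (∀ e, q e = 1 ∨ q e = 2) →
      (∀ v, Even (G.deg (univ.filter fun e => q e = 1) v)) →
      HasCircuitCover G (fun e => 2 * q e)) ∧
    ∀ (a b : ℕ) (F : Fin a → Finset E), (∀ j v, Even (G.deg (F j) v)) →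
      HasCircuitCover G (fun e => 4 * a + 2 * b - 2 * (univ.filter fun j => e ∈ F j).card) := by
  have hQ := six G hB hM
  refine ⟨fun q hq hev => ?_,
    fun a b F hF => TwiceEulerianWeights.cover_switch G hB hQ b a F hF⟩
  obtain ⟨X, hX1, hX2⟩ := TwiceEulerianWeights.cover_switch G hB hQ 0 1
    (fun _ => univ.filter fun e => q e = 1) (fun _ => hev)
  refine ⟨X, hX1, fun e => ?_⟩
  rw [hX2 e]
  rcases hq e with h | h <;> simp [h]

end Pool.Agent.Results.MP_20b97f_co.ThreePathCoverFive
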