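import Pool.Agent.Q253.M8.BFC
import Pool.Agent.Results.MP_20b97f_co.TwiceEulerianWeights

set_option autoImplicit false

/-!
# Seymour's even circuit covers: graphs with vertex cover number at most nine

Graphs are finite, loops and parallel edges allowed: `MGraph V E`, `G.deg`, `G.IsCircuit` and
`G.Bridgeless` are defined in `Pool.Agent.H126R2.CDC.Defs`.

Bridgeless graphs with nine vertices which meet all edges (other than loops) have quadruple covers by
six even subgraphs (`Q253.M8.BFC`): a minimal counterexample has girth at least five and degrees at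
least three; by counting it has at most sixteen vertices of odd degree (and so it has a nowhere-zero
4-flow or is the Petersen graph), or the edges between the cover and the other vertices form a cubic
bipartite graph, and a 3-edge-colouring of it gives a nowhere-zero 4-flow. Symmetric differences with
even subgraphs (`TwiceEulerianWeights` of helper261) and the circuit double cover theorem
(`H126R2.CDC`) give Seymour's conjecture for a large class of weights, tight cuts included.
-/

namespace Pool.Agent.Results.MP_20b97f_co.VertexCoverNine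

open Finset
open Pool.Agent.H126R2.CDC
open Pool.Agent.H126R2.CDC.MGraph

variable {V E : Type} [Fintype V] [DecidableEq V] [Fintype E] [DecidableEq E]

/-- `(G, p)` has a circuit cover: a multiset of circuits such that every edge `e` lies in exactly
`p e` of its members. -/
def HasCircuitCover (G : MGraph V E) (p : E → ℕ) : Prop :=
  ∃ 𝓕 : Multiset (Finset E), (∀ C ∈ 𝓕, G.IsCircuit C) ∧ ∀ e, 𝓕.countP (fun C => e ∈ C) = p e

/-- Some set of at most nine vertices meets all edges which are not loops. -/
def VertexCoverLeNine (G : MGraph V E) : Prop :=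
  ∃ X : Finset V, X.card ≤ 9 ∧ ∀ e, ¬ (G.ends e).IsDiag → ∃ v ∈ X, v ∈ G.ends e

/-- Bridgeless graphs with vertex cover number at most nine have quadruple covers by six even
subgraphs. -/
theorem six (G : MGraph V E) (hB : G.Bridgeless) (hM : VertexCoverLeNine G) :
    TwiceEulerianWeights.SixCover G (fun _ => 4) := by
  obtain ⟨v, hv⟩ := G.exists_halves
  have hm : Q253.VC.Cov (fun e => v (e, false)) (fun e => v (e, true)) := by
    obtain ⟨X, hX, h⟩ := hM
    refine ⟨X, hX, fun e he => ?_⟩
    obtain ⟨w, hw, hwe⟩ := h e (by
      rw [hv e, Sym2.mk_isDiag_iff]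
      exact he)
    rw [hv e, Sym2.mem_iff] at hwe
    rcases hwe with rfl | rfl
    · exact Or.inl hw
    · exact Or.inr hw
  have hcut : TH676.A.Br (fun e => v (e, false)) (fun e => v (e, true)) ∅ ∅ := by
    intro Y _
    rw [sdiff_empty]
    exact G.no_one_cut hB v hv Y
  obtain ⟨C, h1, h2⟩ := TH497.BF.six
    (Q253.M8.BF.flow_of_cov TH497.BF.factsBF _ _ hcut hm)
  refine ⟨C, fun i w => ?_, h2⟩
  have h3 := h1 i w
  rw [deg_eq_sum]
  have h4 : ∑ e ∈ C i, G.ep e w = ∑ e ∈ C i, ((if v (e, false) = w then 1 else 0) +
      (if v (e, true) = w then 1 else 0)) := sum_congr rfl fun e _ => G.ep_eq (hv e) w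
  rw [h4]
  exact h3

/-- **Theorem.** Let `G` be a finite bridgeless graph, loops and parallel edges allowed, in which some
nine vertices meet all edges other than loops.

1. If `q : E → {1, 2}` is an eulerian weight (its edges of weight one form an even subgraph) then
   `(G, 2 q)` has a circuit cover.
2. More generally, for all numbers `a` and `b` and all even subgraphs `F₁, …, F_a`, the weight
   `p(e) = 4 a + 2 b - 2 #{j | e ∈ F_j}` has a circuit cover. -/
theorem result {V E : Type} [Fintype V] [DecidableEq V] [Fintype E] [DecidableEq E]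
    (G : MGraph V E) (hB : G.Bridgeless) (hM : VertexCoverLeNine G) :
    (∀ q : E → ℕ, (∀ e, q e = 1 ∨ q e = 2) →
      (∀ v, Even (G.deg (univ.filter fun e => q e = 1) v)) →
      HasCircuitCover G (fun e => 2 * q e)) ∧
    ∀ (a b : ℕ) (F : Fin a → Finset E), (∀ j v, Even (G.deg (F j) v)) →
      HasCircuitCover G (fun e => 4 * a + 2 * b - 2 * (univ.filter fun j => e ∈ F j).card) := by
  have hQ := six G hB hM
  refine ⟨fun q hq hev => ?_,
    fun a b F hF => TwiceEulerianWeights.cover_switch G hB hQ b a F hF⟩
  obtain ⟨X, hX1, hX2⟩ := TwiceEulerianWeights.cover_switch G hB hQ 0 1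
    (fun _ => univ.filter fun e => q e = 1) (fun _ => hev)
  refine ⟨X, hX1, fun e => ?_⟩
  rw [hX2 e]
  rcases hq e with h | h <;> simp [h]

end Pool.Agent.Results.MP_20b97f_co.VertexCoverNine
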